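import Mathlib

set_option autoImplicit false

namespace Pool.Agent.P.MP_64c1fc_an

/-- The Tanaka-Ito map `T_α`. -/
noncomputable def T (α x : ℝ) : ℝ :=
  if x = 0 then 0 else 1 / x - (⌊1 / x + 1 - α⌋ : ℤ)

/-- Conditions (i) and (ii) for the set of parameters `J` and the exponents `M`, `N`. -/
def Matches (J : Set ℝ) (M N : ℕ) : Prop :=
  (∀ α ∈ J, (T α)^[M] (α - 1) = (T α)^[N] α) ∧
    (∀ᵐ α : ℝ, α ∈ J → (T α)^[M - 1] (α - 1) ≠ (T α)^[N - 1] α)

/-- `J` is a non-empty open interval contained in `[0,1]`. -/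
def IsOpenSubinterval (J : Set ℝ) : Prop :=
  (∃ a b : ℝ, a < b ∧ J = Set.Ioo a b) ∧ J ⊆ Set.Icc 0 1

/-- `J` is a matching interval: (i), (ii) hold for some exponents `M, N ≥ 1`, and (iii) they hold
for no strictly larger open interval. -/
def IsMatchingInterval (J : Set ℝ) : Prop :=
  IsOpenSubinterval J ∧ ∃ M N : ℕ, 1 ≤ M ∧ 1 ≤ N ∧ Matches J M N ∧
    ∀ J' : Set ℝ, IsOpenSubinterval J' → J ⊂ J' → ¬ Matches J' M N

/-- The bifurcation set. -/
def bifurcationSet : Set ℝ :=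
  Set.Icc 0 1 \ ⋃₀ {J | IsMatchingInterval J}

/-- The non-isolated points of the bifurcation set. -/
def nonIsolated : Set ℝ :=
  {α | α ∈ bifurcationSet ∧ ∀ V ∈ nhds α, ∃ β ∈ V, β ∈ bifurcationSet ∧ β ≠ α}

end Pool.Agent.P.MP_64c1fc_an
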