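import Pool.Agent.P.MP_64c1fc_an.Unique

set_option autoImplicit false

open Set MeasureTheory Filter Topology

namespace Pool.Agent.P.MP_64c1fc_an

/-- The relation between the two orbits before matching. -/
def Rel (u X Y : ℝ) : Prop := X = -u ∧ (Y = u ∨ Y = u / (1 - u))

theorem Rel.inv {u X Y : ℝ} (h : Rel u X Y) (h0 : 0 < u) (h1 : u < 1) :
    X ≠ 0 ∧ Y ≠ 0 ∧ 1 / X = -(1 / u) ∧ ∃ e : ℤ, 1 / Y = 1 / u - e := by
  obtain ⟨rfl, h | h⟩ := h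
  · subst h
    exact ⟨by linarith, h0.ne', by rw [one_div_neg_eq_neg_one_div], 0, by simp⟩
  · subst h
    have h2 : 0 < 1 - u := by linarith
    refine ⟨by linarith, (div_pos h0 h2).ne', by rw [one_div_neg_eq_neg_one_div], 1, ?_⟩
    field_simp
    push_cast
    ring

theorem stepL {α u X Y : ℝ} (h : Rel u X Y) (h0 : 0 < u) (h1 : u < 1) (hα : 1 / 2 < α)
    (hα1 : α ≤ 1) (d0 : 0 ≤ 4 - 1 / u) (d1 : 4 - 1 / u ≤ 1 - α) :
    Rel (4 - 1 / u) (T α Y) (T α X) := by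
  obtain ⟨hX, hY, eX, e, eY⟩ := h.inv h0 h1
  have a1 : T α X = 1 / X - ((-4 : ℤ) : ℝ) :=
    T_eq hX (-4) (by rw [eX]; push_cast; linarith) (by rw [eX]; push_cast; linarith)
  have a2 : T α Y = 1 / Y - ((4 - e : ℤ) : ℝ) :=
    T_eq hY (4 - e) (by rw [eY]; push_cast; linarith) (by rw [eY]; push_cast; linarith)
  refine ⟨?_, Or.inl ?_⟩
  · rw [a2, eY]; push_cast; ring
  · rw [a1, eX]; push_cast; ring

theorem stepC {α u X Y : ℝ} (h : Rel u X Y) (h0 : 0 < u) (h1 : u < 1) (hα : 1 / 2 < α)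
    (hα1 : α ≤ 1) (d0 : 1 - α < 4 - 1 / u) (d1 : 4 - 1 / u ≤ 1 / 2) :
    T α X = 4 - 1 / u ∧ T α Y = 1 / u - 3 := by
  obtain ⟨hX, hY, eX, e, eY⟩ := h.inv h0 h1
  have a1 : T α X = 1 / X - ((-4 : ℤ) : ℝ) :=
    T_eq hX (-4) (by rw [eX]; push_cast; linarith) (by rw [eX]; push_cast; linarith)
  have a2 : T α Y = 1 / Y - ((3 - e : ℤ) : ℝ) :=
    T_eq hY (3 - e) (by rw [eY]; push_cast; linarith) (by rw [eY]; push_cast; linarith)
  constructor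
  · rw [a1, eX]; push_cast; ring
  · rw [a2, eY]; push_cast; ring

theorem stepR {α u X Y : ℝ} (h : Rel u X Y) (h0 : 0 < u) (h1 : u < 1) (hα : 0.72 < α)
    (hα1 : α ≤ 1) (d0 : 1 - α < 4 - 1 / u) (d1 : 4 - 1 / u ≤ 1 / 2)
    (d2 : 2 - 1 / (1 / u - 3) ≤ 1 - α) :
    Rel (2 - 1 / (1 / u - 3)) (T α (T α Y)) (T α (T α X)) := by
  obtain ⟨eX, eY⟩ := stepC h h0 h1 (by linarith) hα1 d0 d1
  rw [eX, eY]
  set s := 1 / u - 3 with hs
  have hδ : 4 - 1 / u = 1 - s := by rw [hs]; ring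
  rw [hδ] at d0 d1 ⊢
  have s1 : 1 / 2 ≤ s := by linarith
  have s0 : 0 < s := by linarith
  have s2 : 1 / s ≤ 2 := by rw [div_le_iff₀ s0]; linarith
  have s3 : s ≤ 0.6 := by
    have : 1.72 ≤ 1 / s := by linarith
    rw [le_div_iff₀ s0] at this
    linarith
  have t0 : 0 < 1 - s := by linarith
  have t1 : 2 ≤ 1 / (1 - s) := by rw [le_div_iff₀ t0]; linarith
  have t2 : 1 / (1 - s) ≤ 2.5 := by rw [div_le_iff₀ t0]; linarith
  have a1 : T α s = 1 / s - ((2 : ℤ) : ℝ) :=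
    T_eq s0.ne' 2 (by push_cast; linarith) (by push_cast; linarith)
  have a2 : T α (1 - s) = 1 / (1 - s) - ((2 : ℤ) : ℝ) :=
    T_eq t0.ne' 2 (by push_cast; linarith) (by push_cast; linarith)
  refine ⟨?_, Or.inr ?_⟩
  · rw [a1]; push_cast; ring
  · rw [a2]
    have : 1 - (2 - 1 / s) = (1 - s) / s := by field_simp; ring
    rw [this]
    push_cast
    field_simp
    ring

theorem stepH {α u X Y : ℝ} (h : Rel u X Y) (h0 : 0 < u) (h1 : u < 1) (hα : 0.72 < α)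
    (hα1 : α ≤ 1) (d0 : 1 - α < 4 - 1 / u) (d1 : 4 - 1 / u ≤ 1 / 2)
    (d2 : 1 - α < 2 - 1 / (1 / u - 3)) :
    T α (T α (T α Y)) = T α (T α X) ∧ T α (T α Y) ≠ T α X := by
  obtain ⟨eX, eY⟩ := stepC h h0 h1 (by linarith) hα1 d0 d1
  rw [eX, eY]
  set s := 1 / u - 3 with hs
  have hδ : 4 - 1 / u = 1 - s := by rw [hs]; ring
  rw [hδ] at d0 d1 ⊢
  have s1 : 1 / 2 ≤ s := by linarith
  have s0 : 0 < s := by linarith
  have s3 : s < 1 := by linarith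
  have s2 : 1 < 1 / s := by rw [lt_div_iff₀ s0]; linarith
  have t0 : 0 < 1 - s := by linarith
  have a1 : T α s = 1 / s - ((1 : ℤ) : ℝ) :=
    T_eq s0.ne' 1 (by push_cast; linarith) (by push_cast; linarith)
  have a2 : T α s = (1 - s) / s := by rw [a1]; push_cast; field_simp
  rw [a2]
  constructor
  · refine T_congr (div_pos t0 s0).ne' t0.ne' (-1) ?_
    push_cast
    field_simp
    ring
  · intro hc
    rw [div_eq_iff s0.ne'] at hc
    nlinarith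

/-- The orbit of the left endpoint. -/
noncomputable def xo (n : ℕ) (α : ℝ) : ℝ := (T α)^[n] (α - 1)

/-- The orbit of the right endpoint, shifted by one. -/
noncomputable def yo (n : ℕ) (α : ℝ) : ℝ := (T α)^[n + 1] α

theorem xo_succ (n : ℕ) (α : ℝ) : xo (n + 1) α = T α (xo n α) :=
  Function.iterate_succ_apply' _ _ _

theorem yo_succ (n : ℕ) (α : ℝ) : yo (n + 1) α = T α (yo n α) :=
  Function.iterate_succ_apply' _ _ _

/-- The relation holds near `α0` along a continuous function. -/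
def Tr (α0 : ℝ) (n : ℕ) (f : ℝ → ℝ) : Prop :=
  ContinuousAt f α0 ∧ ((∀ᶠ α in 𝓝 α0, Rel (f α) (xo n α) (yo n α)) ∨
    (∀ᶠ α in 𝓝 α0, Rel (f α) (yo n α) (xo n α)))

theorem Tr.init {α0 : ℝ} (h0 : 0.72 < α0) (h1 : α0 < 1) : Tr α0 0 (fun α => 1 - α) := by
  refine ⟨by fun_prop, Or.inl ?_⟩
  filter_upwards [Ioo_mem_nhds h0 h1] with α hα
  have a0 : 0 < α := by linarith [hα.1]
  refine ⟨by simp [xo], Or.inr ?_⟩
  have b1 : 1 < 1 / α := by rw [lt_div_iff₀ a0]; linarith [hα.2]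
  have b2 : 1 / α < 1.5 := by rw [div_lt_iff₀ a0]; linarith [hα.1]
  have a1 : T α α = 1 / α - ((1 : ℤ) : ℝ) :=
    T_eq a0.ne' 1 (by push_cast; linarith [hα.2]) (by push_cast; linarith [hα.1])
  have : yo 0 α = T α α := by simp [yo]
  have e : 1 - (1 - α) = α := by ring
  rw [this, a1, e]
  push_cast
  field_simp

theorem inv_bounds {u : ℝ} (h0 : 0.268 ≤ u) (h1 : u ≤ 0.27953) :
    3.5774 ≤ 1 / u ∧ 1 / u ≤ 3.7314 := by
  have : 0 < u := by linarith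
  constructor
  · rw [le_div_iff₀ this]; linarith
  · rw [div_le_iff₀ this]; linarith

theorem Tr.L {α0 : ℝ} {n : ℕ} {f : ℝ → ℝ} (h : Tr α0 n f) (h0 : 0.72 < α0) (h1 : α0 < 1)
    (f0 : 0.268 ≤ f α0) (f1 : f α0 ≤ 0.27953) (d1 : 4 - 1 / f α0 < 1 - α0) :
    Tr α0 (n + 1) (fun α => 4 - 1 / f α) := by
  obtain ⟨hc, hr⟩ := h
  have hne : f α0 ≠ 0 := by linarith
  have hc' : ContinuousAt (fun α => 4 - 1 / f α) α0 := by fun_prop (disch := assumption)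
  obtain ⟨b0, b1⟩ := inv_bounds f0 f1
  have e1 : ∀ᶠ α in 𝓝 α0, 0 < f α := hc.eventually (lt_mem_nhds (by linarith))
  have e2 : ∀ᶠ α in 𝓝 α0, f α < 1 := hc.eventually (gt_mem_nhds (by linarith))
  have e3 : ∀ᶠ α in 𝓝 α0, 0 < 4 - 1 / f α := hc'.eventually (lt_mem_nhds (by linarith))
  have e4 : ∀ᶠ α in 𝓝 α0, 4 - 1 / f α < 1 - α :=
    hc'.eventually_lt (g := fun α => 1 - α) (by fun_prop) d1
  refine ⟨hc', ?_⟩
  rcases hr with hr | hr
  · right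
    filter_upwards [hr, e1, e2, e3, e4, Ioo_mem_nhds h0 h1] with α r a1 a2 a3 a4 a5
    rw [xo_succ, yo_succ]
    exact stepL r a1 a2 (by linarith [a5.1]) a5.2.le a3.le a4.le
  · left
    filter_upwards [hr, e1, e2, e3, e4, Ioo_mem_nhds h0 h1] with α r a1 a2 a3 a4 a5
    rw [xo_succ, yo_succ]
    exact stepL r a1 a2 (by linarith [a5.1]) a5.2.le a3.le a4.le

theorem Tr.R {α0 : ℝ} {n : ℕ} {f : ℝ → ℝ} (h : Tr α0 n f) (h0 : 0.72 < α0) (h1 : α0 < 1)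
    (f0 : 0.268 ≤ f α0) (f1 : f α0 ≤ 0.27953) (d0 : 1 - α0 < 4 - 1 / f α0)
    (d2 : 2 - 1 / (1 / f α0 - 3) < 1 - α0) :
    Tr α0 (n + 2) (fun α => 2 - 1 / (1 / f α - 3)) := by
  obtain ⟨hc, hr⟩ := h
  have hne : f α0 ≠ 0 := by linarith
  obtain ⟨b0, b1⟩ := inv_bounds f0 f1
  have hne2 : 1 / f α0 - 3 ≠ 0 := by linarith
  have hc' : ContinuousAt (fun α => 4 - 1 / f α) α0 := by fun_prop (disch := assumption)
  have hc'' : ContinuousAt (fun α => 2 - 1 / (1 / f α - 3)) α0 := by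
    fun_prop (disch := assumption)
  have e1 : ∀ᶠ α in 𝓝 α0, 0 < f α := hc.eventually (lt_mem_nhds (by linarith))
  have e2 : ∀ᶠ α in 𝓝 α0, f α < 1 := hc.eventually (gt_mem_nhds (by linarith))
  have e3 : ∀ᶠ α in 𝓝 α0, 4 - 1 / f α < 1 / 2 := hc'.eventually (gt_mem_nhds (by linarith))
  have e4 : ∀ᶠ α in 𝓝 α0, 1 - α < 4 - 1 / f α :=
    ContinuousAt.eventually_lt (f := fun α => 1 - α) (by fun_prop) hc' d0
  have e5 : ∀ᶠ α in 𝓝 α0, 2 - 1 / (1 / f α - 3) < 1 - α :=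
    hc''.eventually_lt (g := fun α => 1 - α) (by fun_prop) d2
  refine ⟨hc'', ?_⟩
  rcases hr with hr | hr
  · right
    filter_upwards [hr, e1, e2, e3, e4, e5, Ioo_mem_nhds h0 h1] with α r a1 a2 a3 a4 a5 a6
    rw [xo_succ, yo_succ, xo_succ, yo_succ]
    exact stepR r a1 a2 a6.1 a6.2.le a4 a3.le a5.le
  · left
    filter_upwards [hr, e1, e2, e3, e4, e5, Ioo_mem_nhds h0 h1] with α r a1 a2 a3 a4 a5 a6
    rw [xo_succ, yo_succ, xo_succ, yo_succ]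
    exact stepR r a1 a2 a6.1 a6.2.le a4 a3.le a5.le

/-- `α0` lies in a matching interval whose exponents add up to `k`. -/
def InMI (α0 : ℝ) (k : ℕ) : Prop := ∃ a b M N, MI a b M N ∧ α0 ∈ Ioo a b ∧ M + N = k

theorem inMI_of_eventually {α0 : ℝ} (h0 : 0 < α0) (h1 : α0 < 1) {M N : ℕ}
    (h : ∀ᶠ α in 𝓝 α0, (T α)^[M + 1] (α - 1) = (T α)^[N + 1] α ∧
      (T α)^[M] (α - 1) ≠ (T α)^[N] α) : InMI α0 (M + N + 2) := by
  have h2 := h.and (Ioo_mem_nhds h0 h1)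
  obtain ⟨a, b, hab, hs⟩ := mem_nhds_iff_exists_Ioo_subset.mp h2
  obtain ⟨A, B, hsub, hMI⟩ := exists_MI (hab.1.trans hab.2) (M := M + 1) (N := N + 1)
    (fun α hα => Ioo_subset_Icc_self (hs hα).2) (by omega) (by omega)
    ⟨fun α hα => (hs hα).1.1, Eventually.of_forall fun α hα => (hs hα).1.2⟩
  exact ⟨A, B, M + 1, N + 1, hMI, hsub hab, by omega⟩

theorem Tr.H {α0 : ℝ} {n : ℕ} {f : ℝ → ℝ} (h : Tr α0 n f) (h0 : 0.72 < α0) (h1 : α0 < 1)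
    (f0 : 0.268 ≤ f α0) (f1 : f α0 ≤ 0.27953) (d0 : 1 - α0 < 4 - 1 / f α0)
    (d2 : 1 - α0 < 2 - 1 / (1 / f α0 - 3)) : InMI α0 (2 * n + 6) := by
  obtain ⟨hc, hr⟩ := h
  have hne : f α0 ≠ 0 := by linarith
  obtain ⟨b0, b1⟩ := inv_bounds f0 f1
  have hne2 : 1 / f α0 - 3 ≠ 0 := by linarith
  have hc' : ContinuousAt (fun α => 4 - 1 / f α) α0 := by fun_prop (disch := assumption)
  have hc'' : ContinuousAt (fun α => 2 - 1 / (1 / f α - 3)) α0 := by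
    fun_prop (disch := assumption)
  have e1 : ∀ᶠ α in 𝓝 α0, 0 < f α := hc.eventually (lt_mem_nhds (by linarith))
  have e2 : ∀ᶠ α in 𝓝 α0, f α < 1 := hc.eventually (gt_mem_nhds (by linarith))
  have e3 : ∀ᶠ α in 𝓝 α0, 4 - 1 / f α < 1 / 2 := hc'.eventually (gt_mem_nhds (by linarith))
  have e4 : ∀ᶠ α in 𝓝 α0, 1 - α < 4 - 1 / f α :=
    ContinuousAt.eventually_lt (f := fun α => 1 - α) (by fun_prop) hc' d0
  have e5 : ∀ᶠ α in 𝓝 α0, 1 - α < 2 - 1 / (1 / f α - 3) :=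
    ContinuousAt.eventually_lt (f := fun α => 1 - α) (by fun_prop) hc'' d2
  rcases hr with hr | hr
  · have e : 2 * n + 6 = (n + 1) + (n + 3) + 2 := by ring
    rw [e]
    apply inMI_of_eventually (by linarith) h1
    filter_upwards [hr, e1, e2, e3, e4, e5, Ioo_mem_nhds h0 h1] with α r a1 a2 a3 a4 a5 a6
    obtain ⟨c1, c2⟩ := stepH r a1 a2 a6.1 a6.2.le a4 a3.le a5
    rw [← xo_succ, ← yo_succ, ← yo_succ] at c2
    rw [← xo_succ, ← xo_succ, ← yo_succ, ← yo_succ, ← yo_succ] at c1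
    exact ⟨c1.symm, c2.symm⟩
  · have e : 2 * n + 6 = (n + 2) + (n + 2) + 2 := by ring
    rw [e]
    apply inMI_of_eventually (by linarith) h1
    filter_upwards [hr, e1, e2, e3, e4, e5, Ioo_mem_nhds h0 h1] with α r a1 a2 a3 a4 a5 a6
    obtain ⟨c1, c2⟩ := stepH r a1 a2 a6.1 a6.2.le a4 a3.le a5
    rw [← yo_succ, ← xo_succ, ← xo_succ] at c2
    rw [← yo_succ, ← yo_succ, ← xo_succ, ← xo_succ, ← xo_succ] at c1
    exact ⟨c1, c2⟩

end Pool.Agent.P.MP_64c1fc_an
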