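import Pool.Agent.P.MP_64c1fc_an.Dyn

set_option autoImplicit false

open Set MeasureTheory Filter Topology

namespace Pool.Agent.P.MP_64c1fc_an

theorem den_inv_lt {q : ℚ} (h0 : 0 < q) (h1 : q < 1) : (1 / q).den < q.den := by
  rw [one_div, Rat.den_inv_of_ne_zero h0.ne']
  have h2 : q.num < q.den := Rat.num_lt_denom_iff.mpr h1
  have h3 : 0 < q.num := Rat.num_pos.mpr h0
  omega

theorem R_bounds {u : ℝ} (f1 : u ≤ 0.27953) (f0 : 0.268 ≤ u) :
    0.268 ≤ 2 - 1 / (1 / u - 3) := by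
  obtain ⟨b0, b1⟩ := inv_bounds f0 f1
  have h : 0 < 1 / u - 3 := by linarith
  have : 1 / (1 / u - 3) ≤ 1.732 := by rw [div_le_iff₀ h]; linarith
  linarith

/-- Inside the window every rational parameter reaches the matching region. -/
theorem rat_inMI (r : ℚ) (h0 : (0.72047 : ℝ) < r) (h1 : (r : ℝ) < 0.73) (q : ℕ) :
    ∀ (n : ℕ) (f : ℝ → ℝ) (u : ℚ), Tr r n f → f r = u → u.den = q → u.den ≤ (1 - r).den →
      (0.268 : ℝ) ≤ u → (u : ℝ) ≤ 1 - r → ∃ k, InMI r k := by
  induction q using Nat.strong_induction_on with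
  | _ q ih =>
    intro n f u htr hfu hq hden f0 f1
    have f1' : (u : ℝ) ≤ 0.27953 := by linarith
    obtain ⟨b0, b1⟩ := inv_bounds f0 f1'
    have u0 : 0 < u := by
      have : (0 : ℝ) < u := by linarith
      exact_mod_cast this
    have u1 : u < 1 := by
      have : (u : ℝ) < 1 := by linarith
      exact_mod_cast this
    have d1 := den_inv_lt u0 u1
    have dL : (4 - 1 / u : ℚ).den < u.den := by
      have := Rat.intCast_sub_den 4 (1 / u)
      push_cast at this
      rw [this]; exact d1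
    have v0 : 0 < (1 / u - 3 : ℚ) := by
      have : (0 : ℝ) < ((1 / u - 3 : ℚ) : ℝ) := by push_cast; linarith
      exact_mod_cast this
    have v1 : (1 / u - 3 : ℚ) < 1 := by
      have : ((1 / u - 3 : ℚ) : ℝ) < 1 := by push_cast; linarith
      exact_mod_cast this
    have dR : (2 - 1 / (1 / u - 3) : ℚ).den < u.den := by
      have e1 := Rat.intCast_sub_den 2 (1 / (1 / u - 3))
      have e2 := Rat.sub_intCast_den (1 / u) 3
      push_cast at e1 e2
      have e3 := den_inv_lt v0 v1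
      rw [e1]
      rw [e2] at e3
      exact e3.trans d1
    have hr0 : (0.72 : ℝ) < r := by linarith
    have hr1 : (r : ℝ) < 1 := by linarith
    rcases lt_trichotomy (4 - 1 / u) (1 - r) with c | c | c
    · have c' : (4 - 1 / (u : ℝ)) < 1 - r := by exact_mod_cast c
      refine ih _ (hq ▸ dL) (n + 1) _ (4 - 1 / u)
        (htr.L hr0 hr1 (hfu ▸ f0) (hfu ▸ f1') (hfu ▸ c')) ?_ rfl (dL.le.trans hden) ?_ ?_
      · rw [hfu]; push_cast; ring
      · push_cast; linarith
      · push_cast; linarith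
    · rw [c] at dL; omega
    · have c' : 1 - (r : ℝ) < 4 - 1 / (u : ℝ) := by exact_mod_cast c
      rcases lt_trichotomy (2 - 1 / (1 / u - 3)) (1 - r) with c2 | c2 | c2
      · have c2' : (2 - 1 / (1 / (u : ℝ) - 3)) < 1 - r := by exact_mod_cast c2
        refine ih _ (hq ▸ dR) (n + 2) _ (2 - 1 / (1 / u - 3))
          (htr.R hr0 hr1 (hfu ▸ f0) (hfu ▸ f1') (hfu ▸ c') (hfu ▸ c2')) ?_ rfl
          (dR.le.trans hden) ?_ ?_
        · rw [hfu]; push_cast; ring
        · push_cast; exact R_bounds f1' f0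
        · push_cast; linarith
      · rw [c2] at dR; omega
      · have c2' : 1 - (r : ℝ) < 2 - 1 / (1 / (u : ℝ) - 3) := by exact_mod_cast c2
        exact ⟨_, htr.H hr0 hr1 (hfu ▸ f0) (hfu ▸ f1') (hfu ▸ c') (hfu ▸ c2')⟩

theorem InMI.not_mem {α : ℝ} {k : ℕ} (h : InMI α k) : α ∉ bifurcationSet := by
  obtain ⟨a, b, M, N, hMI, hα, -⟩ := h
  exact fun hb => (mem_bif_iff.mp hb).2 a b M N hMI hα

theorem rat_not_mem (r : ℚ) (h0 : (0.72047 : ℝ) < r) (h1 : (r : ℝ) < 0.73) :
    (r : ℝ) ∉ bifurcationSet := by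
  obtain ⟨k, hk⟩ := rat_inMI r h0 h1 _ 0 (fun α => 1 - α) (1 - r)
    (Tr.init (by linarith) (by linarith)) (by push_cast; ring) rfl le_rfl
    (by push_cast; linarith) (by push_cast; linarith)
  exact hk.not_mem

/-- Backward orbit under the decreasing branch. -/
noncomputable def v : ℕ → ℝ
  | 0 => 0.277
  | j + 1 => (2 - v j) / (7 - 3 * v j)

theorem v_bounds (j : ℕ) : 0.277 ≤ v j ∧ v j ≤ 0.2794 := by
  induction j with
  | zero => simp only [v]; norm_num
  | succ j ih =>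
    have h : 0 < 7 - 3 * v j := by linarith [ih.2]
    simp only [v]
    constructor
    · rw [le_div_iff₀ h]; linarith [ih.2]
    · rw [div_le_iff₀ h]; linarith [ih.1]

theorem R_inv {w : ℝ} (h0 : 0 ≤ w) (h1 : w < 1) :
    2 - 1 / (1 / ((2 - w) / (7 - 3 * w)) - 3) = w := by
  have a1 : 7 - 3 * w ≠ 0 := by linarith
  have a2 : 2 - w ≠ 0 := by linarith
  have : 1 / ((2 - w) / (7 - 3 * w)) - 3 = 1 / (2 - w) := by field_simp; ring
  rw [this]
  field_simp
  ring

theorem v_inMI {α0 : ℝ} (h0 : 0.72047 < α0) (h1 : α0 < 0.7205) (i : ℕ) :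
    ∀ (n : ℕ) (f : ℝ → ℝ), Tr α0 n f → f α0 = v i → InMI α0 (2 * (n + 2 * i) + 6) := by
  induction i with
  | zero =>
    intro n f htr hf
    have hf' : f α0 = 0.277 := hf
    refine htr.H (by linarith) (by linarith) (by rw [hf']; norm_num) (by rw [hf']; norm_num) ?_ ?_
    · rw [hf']; norm_num; linarith
    · rw [hf']; norm_num; linarith
  | succ i ih =>
    intro n f htr hf
    obtain ⟨b0, b1⟩ := v_bounds (i + 1)
    obtain ⟨c0, c1⟩ := v_bounds i
    have hR : 2 - 1 / (1 / v (i + 1) - 3) = v i := by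
      simp only [v]; exact R_inv (by linarith) (by linarith)
    have hp : 0 < v (i + 1) := by linarith
    have hi : 1 / v (i + 1) ≤ 3.62 := by rw [div_le_iff₀ hp]; linarith
    have := ih (n + 2) _ (htr.R (by linarith) (by linarith) (by rw [hf]; linarith)
      (by rw [hf]; linarith) (by rw [hf]; linarith) (by rw [hf, hR]; linarith))
      (by rw [hf, hR])
    have e : 2 * (n + 2 * (i + 1)) + 6 = 2 * (n + 2 + 2 * i) + 6 := by ring
    rw [e]
    exact this

/-- The parameters with itinerary `R L R^j` followed by matching. -/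
noncomputable def al (j : ℕ) : ℝ :=
  1 - (2 - 1 / (4 - v j)) / (7 - 3 * (1 / (4 - v j)))

theorem w_bounds (j : ℕ) : 0.2686 ≤ 1 / (4 - v j) ∧ 1 / (4 - v j) ≤ 0.2688 := by
  obtain ⟨c0, c1⟩ := v_bounds j
  have h : 0 < 4 - v j := by linarith
  constructor
  · rw [le_div_iff₀ h]; linarith
  · rw [div_le_iff₀ h]; linarith

theorem al_bounds (j : ℕ) : al j ∈ Icc (0.720475 : ℝ) 0.72049 := by
  obtain ⟨c0, c1⟩ := w_bounds j
  have h : 0 < 7 - 3 * (1 / (4 - v j)) := by linarith
  have a1 : 0.27951 ≤ (2 - 1 / (4 - v j)) / (7 - 3 * (1 / (4 - v j))) := by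
    rw [le_div_iff₀ h]; linarith
  have a2 : (2 - 1 / (4 - v j)) / (7 - 3 * (1 / (4 - v j))) ≤ 0.279525 := by
    rw [div_le_iff₀ h]; linarith
  unfold al
  constructor <;> linarith

theorem al_inMI (j : ℕ) : InMI (al j) (4 * j + 12) := by
  obtain ⟨a0, a1⟩ := al_bounds j
  obtain ⟨w0, w1⟩ := w_bounds j
  obtain ⟨c0, c1⟩ := v_bounds j
  have t0 : Tr (al j) 0 (fun α => 1 - α) := Tr.init (by linarith) (by linarith)
  have hp : 0 < 1 - al j := by linarith
  have hi : 1 / (1 - al j) ≤ 3.62 := by rw [div_le_iff₀ hp]; linarith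
  have hR : 2 - 1 / (1 / (1 - al j) - 3) = 1 / (4 - v j) := by
    have : 1 - al j = (2 - 1 / (4 - v j)) / (7 - 3 * (1 / (4 - v j))) := by unfold al; ring
    rw [this]
    exact R_inv (by linarith) (by linarith)
  have t1 := t0.R (by linarith) (by linarith) (by linarith) (by linarith) (by linarith)
    (by rw [hR]; linarith)
  have hL : 4 - 1 / (2 - 1 / (1 / (1 - al j) - 3)) = v j := by
    rw [hR, one_div_one_div]; ring
  have t2 := t1.L (by linarith) (by linarith) (by rw [hR]; linarith) (by rw [hR]; linarith)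
    (by rw [hL]; linarith)
  have := v_inMI (by linarith) (by linarith) j _ _ t2 hL
  have e : 4 * j + 12 = 2 * (0 + 2 + 1 + 2 * j) + 6 := by ring
  rw [e]
  exact this

theorem InMI.unique {α β : ℝ} {k l : ℕ} {a b : ℝ} {M N : ℕ} (h : MI a b M N) (hα : α ∈ Ioo a b)
    (hβ : β ∈ Ioo a b) (h1 : InMI α k) (h2 : InMI β l) : k = l := by
  obtain ⟨a1, b1, M1, N1, m1, x1, rfl⟩ := h1
  obtain ⟨a2, b2, M2, N2, m2, x2, rfl⟩ := h2
  obtain ⟨rfl, rfl⟩ := h.unique m1 hα x1
  obtain ⟨rfl, rfl⟩ := h.unique m2 hβ x2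
  rfl

/-- Between two parameters in matching intervals with different exponents lies a bifurcation
parameter. -/
theorem exists_between_bif {α β : ℝ} {k l : ℕ} (hlt : α < β) (h1 : InMI α k) (h2 : InMI β l)
    (hkl : k ≠ l) : ∃ e ∈ bifurcationSet, α < e ∧ e < β := by
  obtain ⟨a, b, M, N, m, x, hk⟩ := id h1
  refine ⟨b, m.right_mem, x.2, ?_⟩
  rcases lt_trichotomy b β with c | c | c
  · exact c
  · exact absurd (c ▸ m.right_mem) h2.not_mem
  · exact absurd (InMI.unique m x ⟨x.1.trans hlt, c⟩ h1 h2) hkl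

theorem exists_counterexample : ∃ α ∈ nonIsolated, 0.72047 < α ∧ α < 0.73 := by
  obtain ⟨α, hα, φ, hφ, hlim⟩ := isCompact_Icc.tendsto_subseq al_bounds
  have hE : α ∈ bifurcationSet := by
    rw [mem_bif_iff]
    refine ⟨⟨by linarith [hα.1], by linarith [hα.2]⟩, fun a b M N m hx => ?_⟩
    obtain ⟨k, hk⟩ := eventually_atTop.mp (hlim.eventually (Ioo_mem_nhds hx.1 hx.2))
    have := InMI.unique m (hk k le_rfl) (hk (k + 1) (by omega)) (al_inMI _) (al_inMI _)
    have h2 : φ k < φ (k + 1) := hφ (by omega)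
    omega
  refine ⟨α, ⟨hE, fun V hV => ?_⟩, by linarith [hα.1], by linarith [hα.2]⟩
  obtain ⟨a, b, hab, hs⟩ := mem_nhds_iff_exists_Ioo_subset.mp hV
  obtain ⟨k, hk⟩ := eventually_atTop.mp (hlim.eventually (Ioo_mem_nhds hab.1 hab.2))
  have hne : ∀ j, al j ≠ α := fun j h => (al_inMI j).not_mem (h ▸ hE)
  have key : ∀ i j, k ≤ i → i < j → (al (φ i) < α ↔ al (φ j) < α) →
      ∃ β ∈ V, β ∈ bifurcationSet ∧ β ≠ α := by
    intro i j hi hij hside
    have hφij : φ i < φ j := hφ hij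
    have mi : al (φ i) ∈ Ioo a b := hk i hi
    have mj : al (φ j) ∈ Ioo a b := hk j (by omega)
    have hside' : ∀ e, (al (φ i) < e ∧ e < al (φ j)) ∨ (al (φ j) < e ∧ e < al (φ i)) → e ≠ α := by
      rintro e he rfl
      rcases he with he | he
      · exact absurd (hside.mp he.1) (not_lt.mpr he.2.le)
      · exact absurd (hside.mpr he.1) (not_lt.mpr he.2.le)
    rcases lt_trichotomy (al (φ i)) (al (φ j)) with c | c | c
    · obtain ⟨e, he, e1, e2⟩ := exists_between_bif c (al_inMI _) (al_inMI _) (by omega)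
      exact ⟨e, hs ⟨mi.1.trans e1, e2.trans mj.2⟩, he, hside' e (Or.inl ⟨e1, e2⟩)⟩
    · exfalso
      obtain ⟨a', b', M, N, m, x, -⟩ := al_inMI (φ i)
      have := InMI.unique m x (c ▸ x) (al_inMI (φ i)) (al_inMI (φ j))
      omega
    · obtain ⟨e, he, e1, e2⟩ := exists_between_bif c (al_inMI _) (al_inMI _) (by omega)
      exact ⟨e, hs ⟨mj.1.trans e1, e2.trans mi.2⟩, he, hside' e (Or.inr ⟨e1, e2⟩)⟩
  by_cases c0 : al (φ k) < α <;> by_cases c1 : al (φ (k + 1)) < α <;>
    by_cases c2 : al (φ (k + 2)) < α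
  all_goals first
    | exact key k (k + 1) le_rfl (by omega) (by tauto)
    | exact key k (k + 2) le_rfl (by omega) (by tauto)
    | exact key (k + 1) (k + 2) (by omega) (by omega) (by tauto)

theorem closure_ne :
    closure (bifurcationSet ∩ range ((↑) : ℚ → ℝ)) ≠ nonIsolated := by
  intro h
  obtain ⟨α, hα, h0, h1⟩ := exists_counterexample
  rw [← h, mem_closure_iff_nhds] at hα
  obtain ⟨x, hx, hE, r, rfl⟩ := hα _ (Ioo_mem_nhds h0 h1)
  exact rat_not_mem r hx.1 hx.2 hE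

end Pool.Agent.P.MP_64c1fc_an
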