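import Pool.Agent.P.MP_64c1fc_an.Defs

set_option autoImplicit false

open Set MeasureTheory Filter Topology

namespace Pool.Agent.P.MP_64c1fc_an

theorem T_zero (α : ℝ) : T α 0 = 0 := by simp [T]

theorem T_of_ne {α x : ℝ} (hx : x ≠ 0) : T α x = 1 / x - (⌊1 / x + 1 - α⌋ : ℤ) := by
  simp only [T, if_neg hx]

theorem T_eq {α x : ℝ} (hx : x ≠ 0) (k : ℤ) (h1 : α - 1 ≤ 1 / x - k) (h2 : 1 / x - k < α) :
    T α x = 1 / x - k := by
  rw [T_of_ne hx]
  have : ⌊1 / x + 1 - α⌋ = k := by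
    rw [Int.floor_eq_iff]
    constructor <;> linarith
  rw [this]

theorem T_congr {α x y : ℝ} (hx : x ≠ 0) (hy : y ≠ 0) (k : ℤ) (h : 1 / x = 1 / y + k) :
    T α x = T α y := by
  rw [T_of_ne hx, T_of_ne hy, h]
  have : 1 / y + (k : ℝ) + 1 - α = (1 / y + 1 - α) + k := by ring
  rw [this, Int.floor_add_intCast]
  push_cast
  ring

theorem abs_T_lt_one {α : ℝ} (h0 : 0 < α) (h1 : α < 1) (x : ℝ) : |T α x| < 1 := by
  by_cases hx : x = 0
  · rw [hx, T_zero]; simp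
  · rw [T_of_ne hx, abs_lt]
    have a1 := Int.floor_le (1 / x + 1 - α)
    have a2 := Int.lt_floor_add_one (1 / x + 1 - α)
    constructor <;> linarith

theorem alg_of_T {α x : ℝ} (h : IsAlgebraic ℚ (T α x)) : IsAlgebraic ℚ x := by
  by_cases hx : x = 0
  · rw [hx]; exact isAlgebraic_zero
  · rw [T_of_ne hx] at h
    have h2 : IsAlgebraic ℚ (((⌊1 / x + 1 - α⌋ : ℤ) : ℝ)) := isAlgebraic_intCast _
    have h3 := h.add h2
    rw [sub_add_cancel, one_div] at h3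
    simpa using h3.inv

theorem alg_of_iter {α : ℝ} (n : ℕ) : ∀ {x : ℝ}, IsAlgebraic ℚ ((T α)^[n] x) → IsAlgebraic ℚ x := by
  induction n with
  | zero => intro x h; simpa using h
  | succ n ih =>
    intro x h
    rw [Function.iterate_succ_apply] at h
    exact alg_of_T (ih h)

theorem cocycle {α : ℝ} (h0 : 0 < α) (h1 : α < 1) {x : ℝ} (hx1 : |x| < 1) (n : ℕ)
    (hne : ∀ i, (T α)^[i] x ≠ 0) :
    ∃ (a b c d : ℤ) (l : ℝ), (a * d - b * c = 1 ∨ a * d - b * c = -1) ∧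
      l * x = a * (T α)^[n] x + b ∧ l = c * (T α)^[n] x + d ∧ 1 ≤ |l| ∧ (n ≠ 0 → 1 < |l|) := by
  induction n with
  | zero => exact ⟨1, 0, 0, 1, 1, by simp, by simp, by simp, by simp, by simp⟩
  | succ n ih =>
    obtain ⟨a, b, c, d, l, hdet, e1, e2, hl, -⟩ := ih
    set z := (T α)^[n] x with hz
    have hz0 : z ≠ 0 := hne n
    have hz1 : |z| < 1 := by
      cases n with
      | zero => simpa [hz] using hx1
      | succ m => rw [hz, Function.iterate_succ_apply']; exact abs_T_lt_one h0 h1 _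
    have hT : (T α)^[n + 1] x = 1 / z - (⌊1 / z + 1 - α⌋ : ℤ) := by
      rw [Function.iterate_succ_apply', ← hz, T_of_ne hz0]
    set k := ⌊1 / z + 1 - α⌋ with hk
    have hlt : 1 < |l / z| := by
      rw [abs_div, one_lt_div (abs_pos.mpr hz0)]
      linarith
    refine ⟨b, a + b * k, d, c + d * k, l / z, ?_, ?_, ?_, hlt.le, fun _ => hlt⟩
    · rcases hdet with h | h
      · right; linear_combination -h
      · left; linear_combination -h
    · rw [hT]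
      push_cast
      field_simp
      linear_combination e1
    · rw [hT]
      push_cast
      field_simp
      linear_combination e2

theorem alg_of_periodic {α : ℝ} (h0 : 0 < α) (h1 : α < 1) {z : ℝ} {k : ℕ} (hk : k ≠ 0)
    (h : (T α)^[k] z = z) : IsAlgebraic ℚ z := by
  by_cases hne : ∀ i, (T α)^[i] z ≠ 0
  · have hz1 : |z| < 1 := by
      obtain ⟨m, rfl⟩ := Nat.exists_eq_succ_of_ne_zero hk
      rw [← h, Function.iterate_succ_apply']
      exact abs_T_lt_one h0 h1 _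
    obtain ⟨a, b, c, d, l, hdet, e1, e2, -, hl⟩ := cocycle h0 h1 hz1 k hne
    rw [h] at e1 e2
    have hl := hl hk
    have hc : c ≠ 0 := by
      rintro rfl
      have e3 : l = d := by simpa using e2
      have hd : |d| = 1 := by
        have h2 : a * d = 1 ∨ a * d = -1 := by simpa using hdet
        rcases h2 with h2 | h2
        · rcases Int.eq_one_or_neg_one_of_mul_eq_one' h2 with h3 | h3 <;> simp [h3.2]
        · rcases Int.eq_one_or_neg_one_of_mul_eq_neg_one' h2 with h3 | h3 <;> simp [h3.2]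
      rw [e3, ← Int.cast_abs, hd] at hl
      simp at hl
    refine ⟨Polynomial.C (c : ℚ) * Polynomial.X ^ 2 + Polynomial.C ((d : ℚ) - a) * Polynomial.X
      + Polynomial.C (-(b : ℚ)), ?_, ?_⟩
    · intro hp
      have := congrArg (fun p => Polynomial.coeff p 2) hp
      simp only [Polynomial.coeff_add, Polynomial.coeff_C_mul, Polynomial.coeff_X_pow,
        Polynomial.coeff_X, Polynomial.coeff_C, Polynomial.coeff_zero] at this
      simp at this
      exact hc this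
    · simp only [map_add, map_mul, map_pow, Polynomial.aeval_X, map_sub,
        map_neg, map_intCast]
      rw [e2] at e1
      linear_combination e1
  · push Not at hne
    obtain ⟨i, hi⟩ := hne
    exact alg_of_iter i (hi ▸ isAlgebraic_zero)

theorem alg_of_eventually_periodic {α : ℝ} (h0 : 0 < α) (h1 : α < 1) {x : ℝ} {m n : ℕ}
    (hmn : m ≠ n) (h : (T α)^[m] x = (T α)^[n] x) : IsAlgebraic ℚ x := by
  wlog hlt : m < n generalizing m n
  · exact this hmn.symm h.symm (lt_of_le_of_ne (not_lt.mp hlt) hmn.symm)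
  obtain ⟨k, rfl⟩ := Nat.exists_eq_add_of_lt hlt
  apply alg_of_iter m
  apply alg_of_periodic h0 h1 (k := k + 1) (by omega)
  rw [← Function.iterate_add_apply, h]
  congr 1
  omega

theorem mem_Ioo01 {a b α : ℝ} (hsub : Ioo a b ⊆ Icc 0 1) (h : α ∈ Ioo a b) : 0 < α ∧ α < 1 := by
  have h1 : (a + α) / 2 ∈ Ioo a b := ⟨by linarith [h.1], by linarith [h.1, h.2]⟩
  have h2 : (α + b) / 2 ∈ Ioo a b := ⟨by linarith [h.1, h.2], by linarith [h.2]⟩
  have h3 := (hsub h1).1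
  have h4 := (hsub h2).2
  constructor <;> linarith [h.1, h.2]

theorem not_ae_of_Ioo {a b : ℝ} (hab : a < b) {p : ℝ → Prop} (h : ∀ᵐ α : ℝ, p α)
    (h2 : ∀ α ∈ Ioo a b, ¬ p α) : False := by
  have h3 : volume (Ioo a b) = 0 := measure_mono_null (fun α hα => h2 α hα) (ae_iff.mp h)
  rw [Real.volume_Ioo] at h3
  have := ENNReal.ofReal_eq_zero.mp h3
  linarith

/-- The exponents of overlapping intervals with (i) and (ii) agree. -/
theorem exponents_unique {a b a' b' : ℝ} {M N M' N' : ℕ} (hM : 1 ≤ M) (hN : 1 ≤ N)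
    (hM' : 1 ≤ M') (hN' : 1 ≤ N') (hsub : Ioo a b ⊆ Icc 0 1)
    (h : Matches (Ioo a b) M N) (h' : Matches (Ioo a' b') M' N') {x : ℝ}
    (hx : x ∈ Ioo a b) (hx' : x ∈ Ioo a' b') : M = M' ∧ N = N' := by
  have hlt : max a a' < min b b' :=
    lt_trans (max_lt hx.1 hx'.1) (lt_min hx.2 hx'.2)
  have hK : ∀ α ∈ Ioo (max a a') (min b b'), α ∈ Ioo a b ∧ α ∈ Ioo a' b' := by
    intro α hα
    exact ⟨⟨(le_max_left _ _).trans_lt hα.1, hα.2.trans_le (min_le_left _ _)⟩,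
      ⟨(le_max_right _ _).trans_lt hα.1, hα.2.trans_le (min_le_right _ _)⟩⟩
  by_cases hd : M' + N = M + N'
  · rcases lt_trichotomy M M' with h1 | h1 | h1
    · exfalso
      refine not_ae_of_Ioo hlt h'.2 fun α hα hp => hp (hK α hα).2 ?_
      have e1 : M' - 1 = (M' - 1 - M) + M := by omega
      have e2 : N' - 1 = (M' - 1 - M) + N := by omega
      rw [e1, e2, Function.iterate_add_apply, Function.iterate_add_apply, h.1 α (hK α hα).1]
    · exact ⟨h1, by omega⟩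
    · exfalso
      refine not_ae_of_Ioo hlt h.2 fun α hα hp => hp (hK α hα).1 ?_
      have e1 : M - 1 = (M - 1 - M') + M' := by omega
      have e2 : N - 1 = (M - 1 - M') + N' := by omega
      rw [e1, e2, Function.iterate_add_apply, Function.iterate_add_apply, h'.1 α (hK α hα).2]
  · exfalso
    have hc : ∀ᵐ α : ℝ, ¬ IsAlgebraic ℚ α := by
      rw [ae_iff]
      simpa using (Algebraic.countable ℚ ℝ).measure_zero volume
    refine not_ae_of_Ioo hlt hc fun α hα hp => hp ?_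
    obtain ⟨h0, h1⟩ := mem_Ioo01 hsub (hK α hα).1
    refine alg_of_eventually_periodic h0 h1 hd ?_
    rw [Function.iterate_add_apply, Function.iterate_add_apply, ← h.1 α (hK α hα).1,
      ← h'.1 α (hK α hα).2, ← Function.iterate_add_apply, ← Function.iterate_add_apply,
      add_comm]

/-- The data of a matching interval with explicit endpoints and exponents. -/
def MI (a b : ℝ) (M N : ℕ) : Prop :=
  a < b ∧ Ioo a b ⊆ Icc 0 1 ∧ 1 ≤ M ∧ 1 ≤ N ∧ Matches (Ioo a b) M N ∧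
    ∀ J' : Set ℝ, IsOpenSubinterval J' → Ioo a b ⊂ J' → ¬ Matches J' M N

theorem MI.isMatching {a b : ℝ} {M N : ℕ} (h : MI a b M N) : IsMatchingInterval (Ioo a b) :=
  ⟨⟨⟨a, b, h.1, rfl⟩, h.2.1⟩, M, N, h.2.2.1, h.2.2.2.1, h.2.2.2.2.1, h.2.2.2.2.2⟩

theorem exists_MI_of_isMatching {J : Set ℝ} (h : IsMatchingInterval J) :
    ∃ a b M N, J = Ioo a b ∧ MI a b M N := by
  obtain ⟨⟨⟨a, b, hab, rfl⟩, hsub⟩, M, N, hM, hN, hm, hmax⟩ := h
  exact ⟨a, b, M, N, rfl, hab, hsub, hM, hN, hm, hmax⟩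

theorem mem_bif_iff {x : ℝ} :
    x ∈ bifurcationSet ↔ x ∈ Icc (0 : ℝ) 1 ∧ ∀ a b M N, MI a b M N → x ∉ Ioo a b := by
  unfold bifurcationSet
  rw [Set.mem_sdiff, mem_sUnion]
  constructor
  · rintro ⟨h1, h2⟩
    exact ⟨h1, fun a b M N h hx => h2 ⟨_, h.isMatching, hx⟩⟩
  · rintro ⟨h1, h2⟩
    refine ⟨h1, ?_⟩
    rintro ⟨J, hJ, hx⟩
    obtain ⟨a, b, M, N, rfl, h⟩ := exists_MI_of_isMatching hJ
    exact h2 a b M N h hx

theorem MI.unique {a b a' b' : ℝ} {M N M' N' : ℕ} (h : MI a b M N) (h' : MI a' b' M' N') {x : ℝ}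
    (hx : x ∈ Ioo a b) (hx' : x ∈ Ioo a' b') : M = M' ∧ N = N' :=
  exponents_unique h.2.2.1 h.2.2.2.1 h'.2.2.1 h'.2.2.2.1 h.2.1 h.2.2.2.2.1 h'.2.2.2.2.1 hx hx'

theorem Matches.union {J J' : Set ℝ} {M N : ℕ} (h : Matches J M N) (h' : Matches J' M N) :
    Matches (J ∪ J') M N := by
  refine ⟨fun α hα => hα.elim (h.1 α) (h'.1 α), ?_⟩
  filter_upwards [h.2, h'.2] with α h1 h2 hα
  exact hα.elim h1 h2

/-- Overlapping matching intervals coincide, in the form of an inclusion. -/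
theorem MI.subset {a b a' b' : ℝ} {M N M' N' : ℕ} (h : MI a b M N) (h' : MI a' b' M' N') {x : ℝ}
    (hx : x ∈ Ioo a b) (hx' : x ∈ Ioo a' b') : Ioo a' b' ⊆ Ioo a b := by
  obtain ⟨rfl, rfl⟩ := h.unique h' hx hx'
  have hu : Ioo a b ∪ Ioo a' b' = Ioo (min a a') (max b b') :=
    Ioo_union_Ioo' (hx'.1.trans hx.2) (hx.1.trans hx'.2)
  by_contra hns
  refine h.2.2.2.2.2 (Ioo a b ∪ Ioo a' b') ⟨⟨min a a', max b b', ?_, hu⟩, ?_⟩ ?_
    (h.2.2.2.2.1.union h'.2.2.2.2.1)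
  · exact (min_le_left _ _).trans_lt (h.1.trans_le (le_max_left _ _))
  · exact union_subset h.2.1 h'.2.1
  · refine ⟨subset_union_left, fun hs => hns ?_⟩
    exact subset_union_right.trans hs

theorem MI.Icc_subset {a b : ℝ} {M N : ℕ} (h : MI a b M N) : Icc a b ⊆ Icc 0 1 := by
  rw [← closure_Ioo h.1.ne]
  exact closure_minimal h.2.1 isClosed_Icc

theorem MI.right_mem {a b : ℝ} {M N : ℕ} (h : MI a b M N) : b ∈ bifurcationSet := by
  rw [mem_bif_iff]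
  refine ⟨h.Icc_subset ⟨h.1.le, le_rfl⟩, fun a' b' M' N' h' hb => ?_⟩
  obtain ⟨x, hx1, hx2⟩ := exists_between (max_lt h.1 hb.1)
  have := h.subset h' (x := x) ⟨(le_max_left _ _).trans_lt hx1, hx2⟩
    ⟨(le_max_right _ _).trans_lt hx1, hx2.trans hb.2⟩ hb
  exact lt_irrefl _ this.2

theorem MI.left_mem {a b : ℝ} {M N : ℕ} (h : MI a b M N) : a ∈ bifurcationSet := by
  rw [mem_bif_iff]
  refine ⟨h.Icc_subset ⟨le_rfl, h.1.le⟩, fun a' b' M' N' h' ha => ?_⟩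
  obtain ⟨x, hx1, hx2⟩ := exists_between (lt_min h.1 ha.2)
  have := h.subset h' (x := x) ⟨hx1, hx2.trans_le (min_le_left _ _)⟩
    ⟨ha.1.trans hx1, hx2.trans_le (min_le_right _ _)⟩ ha
  exact lt_irrefl _ this.1

/-- An interval with (i) and (ii) extends to a maximal one. -/
theorem exists_MI {a b : ℝ} {M N : ℕ} (hab : a < b) (hsub : Ioo a b ⊆ Icc 0 1) (hM : 1 ≤ M)
    (hN : 1 ≤ N) (h : Matches (Ioo a b) M N) :
    ∃ A B, Ioo a b ⊆ Ioo A B ∧ MI A B M N := by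
  let S : Set (ℝ × ℝ) := {p | p.1 ≤ a ∧ b ≤ p.2 ∧ Ioo p.1 p.2 ⊆ Icc 0 1 ∧ Matches (Ioo p.1 p.2) M N}
  have hS : (a, b) ∈ S := ⟨le_rfl, le_rfl, hsub, h⟩
  have hbd : ∀ p ∈ S, 0 ≤ p.1 ∧ p.2 ≤ 1 := by
    intro p hp
    have hlt : p.1 < p.2 := hp.1.trans_lt (hab.trans_le hp.2.1)
    have : Icc p.1 p.2 ⊆ Icc 0 1 := by
      rw [← closure_Ioo hlt.ne]
      exact closure_minimal hp.2.2.1 isClosed_Icc
    exact ⟨(this ⟨le_rfl, hlt.le⟩).1, (this ⟨hlt.le, le_rfl⟩).2⟩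
  have hb1 : BddBelow (Prod.fst '' S) := ⟨0, by rintro _ ⟨p, hp, rfl⟩; exact (hbd p hp).1⟩
  have hb2 : BddAbove (Prod.snd '' S) := ⟨1, by rintro _ ⟨p, hp, rfl⟩; exact (hbd p hp).2⟩
  have hn1 : (Prod.fst '' S).Nonempty := ⟨a, (a, b), hS, rfl⟩
  have hn2 : (Prod.snd '' S).Nonempty := ⟨b, (a, b), hS, rfl⟩
  set A := sInf (Prod.fst '' S) with hA
  set B := sSup (Prod.snd '' S) with hB
  have hAle : ∀ p ∈ S, A ≤ p.1 := fun p hp => csInf_le hb1 ⟨p, hp, rfl⟩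
  have hBle : ∀ p ∈ S, p.2 ≤ B := fun p hp => le_csSup hb2 ⟨p, hp, rfl⟩
  have hcov : ∀ α ∈ Ioo A B, ∃ p ∈ S, α ∈ Ioo p.1 p.2 := by
    intro α hα
    rcases lt_or_ge α b with h1 | h1
    · obtain ⟨_, ⟨p, hp, rfl⟩, h2⟩ := exists_lt_of_csInf_lt hn1 hα.1
      exact ⟨p, hp, h2, h1.trans_le hp.2.1⟩
    · obtain ⟨_, ⟨p, hp, rfl⟩, h2⟩ := exists_lt_of_lt_csSup hn2 hα.2
      exact ⟨p, hp, hp.1.trans_lt (hab.trans_le h1), h2⟩
  have hAa : A ≤ a := hAle _ hS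
  have hbB : b ≤ B := hBle _ hS
  refine ⟨A, B, Ioo_subset_Ioo hAa hbB, hAa.trans_lt (hab.trans_le hbB), ?_, hM, hN, ⟨?_, ?_⟩, ?_⟩
  · intro α hα
    obtain ⟨p, hp, h1⟩ := hcov α hα
    exact hp.2.2.1 h1
  · intro α hα
    obtain ⟨p, hp, h1⟩ := hcov α hα
    exact hp.2.2.2.1 α h1
  · rw [ae_iff]
    apply measure_null_of_locally_null
    intro x hx
    simp only [mem_ofPred_eq, Classical.not_imp] at hx
    obtain ⟨p, hp, h1⟩ := hcov x hx.1
    refine ⟨{α | ¬ (α ∈ Ioo A B → (T α)^[M - 1] (α - 1) ≠ (T α)^[N - 1] α)} ∩ Ioo p.1 p.2,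
      inter_mem_nhdsWithin _ (Ioo_mem_nhds h1.1 h1.2), ?_⟩
    refine measure_mono_null ?_ (ae_iff.mp hp.2.2.2.2)
    rintro α ⟨h2, h3⟩
    simp only [mem_ofPred_eq, Classical.not_imp] at h2 ⊢
    exact ⟨h3, h2.2⟩
  · rintro J' ⟨⟨a', b', hab', rfl⟩, hsub'⟩ hss hm
    have hAB : A < B := hAa.trans_lt (hab.trans_le hbB)
    have h1 := (Ioo_subset_Ioo_iff hAB).mp hss.1
    have hp : (a', b') ∈ S := ⟨h1.1.trans hAa, hbB.trans h1.2, hsub', hm⟩
    exact hss.2 (Ioo_subset_Ioo (hAle _ hp) (hBle _ hp))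

end Pool.Agent.P.MP_64c1fc_an
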